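import Mathlib
import Pool.Agent.Y156.L.Thms

/-!
# The perfectness of the motivic cup product pairing and products with almost all abelian varieties

Let `A` be a product of powers of abelian varieties of dimensions `g i` over the field with `q`
elements (over an extension with `q ^ s` elements and up to isogeny), given by their Weil polynomials
`f i`, and let `Z` be any smooth projective scheme of dimension `d` over the field with `q ^ s`
elements. The eigenvalues of Frobenius on the motivic cohomology of `Z`, with the weights, are
restricted only by the condition `HasRank`: up to powers they lie in a group generated by the nonzero
elements of a number field `E` and by `r < g i` further numbers.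

The theorem says that for almost all families `f` of Weil polynomials (all but a proportion
`O (q ^ (-1 / 6) log q)`, for all isogeny classes as well as for the ordinary ones) the motivic
cohomology of `A × Z` is the direct sum of copies of the one of `Z` (Kunneth formula, with products of
divisor classes on `A`), and that for all `i`, `j` the cup product pairing
`H^i(A × Z, ℚ(j)) × H^(2 (dim A + d) - i)(A × Z, ℚ(dim A + d - j)) → ℚ` is perfect if and only if the
pairings `H^(i - 2 k)(Z, ℚ(j - k)) × H^(2 d - i + 2 k)(Z, ℚ(d - j + k)) → ℚ`, `0 ≤ k ≤ dim A`, are
perfect. For example `Z` can be a point, or any curve or surface or product of abelian varieties for
which the pairing is perfect.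

The proof uses the Frobenius operating on the correspondences of `A` (which are spanned, up to
nilpotents, by classes of products of divisors as soon as there are no exotic multiplicative relations
between the Frobenius eigenvalues of `A` and the ones of `Z`), and a large sieve for Weil polynomials
for the count of the exceptions.
-/

set_option autoImplicit false

namespace Pool.Agent.Results.MP_a9d3bd_ag.AlmostAllAbelianFactors

open Pool.Agent.Y156.L

/-- Let `r < g i` for all `i` and let `E` be a number field. Almost all families of abelian
varieties of dimensions `g i` over the field with `q` elements, given by their Weil polynomials
`f i`, have the property `PerfectForRankOver E q r f`: for products `A` of powers of these abelian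
varieties and all smooth projective `Z` of rank at most `r` over `E`, the cup product pairing of
`A × Z` in bidegree `(i, j)` is perfect if and only if the ones of `Z` in the bidegrees
`(i - 2 k, j - k)`, `0 ≤ k ≤ dim A`, are. -/
theorem result {I : Type} [Fintype I] (g : I → ℕ) (r : ℕ) (hr : ∀ i, r < g i)
    (E : IntermediateField ℚ ℂ) [FiniteDimensional ℚ E] :
    AlmostAll g fun q f => PerfectForRankOver E q r f :=
  count_perfect g r hr E

end Pool.Agent.Results.MP_a9d3bd_ag.AlmostAllAbelianFactors
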