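import Pool.Agent.X312.FN.Pair

/-!
# A gap law for the motivic cup product pairings of `Y × X ^ n` over finite fields

Let `X` be a smooth projective geometrically irreducible variety over a finite field `k`, such
that the numerically trivial self-correspondences of its powers are nilpotent (by Kimura this
holds if the Chow motive of `X` is finite-dimensional, for example for products of curves and for
abelian varieties) and such that homological and numerical equivalence agree on its powers for one
Weil cohomology theory (known for abelian varieties and products of curves and suitable `ℓ` by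
Clozel). Let `ρ(Z)` be the rank of the cycles of all codimensions on `Z` modulo numerical
equivalence, and `b` the sum of the Betti numbers of `X`. Let `Y` be **any** smooth projective
variety over `k`, and let `T(Z) = ⊕_(i, n) H^i(Y × Z, ℚ(n))` with the cup product pairing `T(Z) ×
T(Z) → ℚ`, the sum of the pairings of the problem. For all `m ≥ 1`: **the pairings** `⟨ , ⟩_(i,
n)` **for** `Y × X ^ m` **are perfect for all** `i` **and** `n`, **or for all** `N ≥ 1`

`dim {x ∈ T(X ^ N) | ⟨x, y⟩ = 0 for all y} ≥ (1 - 4 (m + 3) b ^ (m + 5) log (N + 1) / N) ρ(X ^
N)`.

So for fixed `X` and `Y` the conjecture Q1 for all the varieties `Y × X ^ m` is equivalent to the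
statement that for each `m` the kernel of the pairing for `Y × X ^ N` has dimension smaller than
`(1 - ε_N) ρ(X ^ N)` for one `N`, where `ε_N = 4 (m + 3) b ^ (m + 5) log (N + 1) / N` tends to
zero.

In fact by the graded commutativity of the cup product all the pairings are perfect for `Y × X ^
m` as soon as the left kernel vanishes: then `H^i(Y × X ^ m, ℚ(n)) = 0` for `i ≠ 2 n` (for `i < 2
n` this group is contained in the left kernel), and rational and numerical equivalence agree on `Y
× X ^ m`, so that the Chow groups are finite-dimensional. The action of a correspondence on `T` is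
adjoint to the action of the transposed correspondence.

The proof. Modulo numerical equivalence the self-correspondences of `P = X ^ m` form a
finite-dimensional algebra, and the numerically trivial ones are nilpotent, so that idempotents
can be lifted. If the functor `T` does not vanish on `P`, one takes an idempotent correspondence
`g` on `P` of minimal rank with `g T(P) ≠ 0` and an element `z ≠ 0` of `g T(P)`. The
correspondences `x` with `x z = 0` have a nilpotent compression `g x g`, so the trace of `g x`
vanishes, and so `dim T(Z)` is at least the rank of the trace form `(u, v) ↦ tr (g v u)` on the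
correspondences between `P` and `Z`; for `Z = X ^ n` this rank is compared with `ρ(X ^ n)` by the
log-convexity of the sequence of the ranks of the intersection forms and by the symmetric group.
-/

set_option autoImplicit false

open CategoryTheory AlgebraicGeometry

universe u v w

namespace Pool.Agent.Results.MP_a9d3bd_ag.FunctorGapLaw

open Pool.Agent.H914 VarClass Obj WeilCohomology
open Pool.Agent.X312.FN (CorrCat CorrFunctor IsPairing gapBound)
open Pool.Agent.Y133.Half (pw cycRank)

variable {k : Type u} [Field k] {𝒱 : VarClass k} {ops : CycleOps 𝒱}
  {W : WeilCohomology.{u, v} ops}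

/-- The sum of the Betti numbers of `X`. -/
noncomputable def totalBetti (W : WeilCohomology.{u, v} ops) (X : 𝒱.Obj) : ℕ :=
  Module.finrank W.K (W.H X)

/-- **The gap law for pairings.** Here `C` is the category of Chow correspondences over `k` with
coefficients in `F` (in the intended use `F = ℚ`), `T` and `S` are additive functors with pairings
`p Z : T(Z) × S(Z) → F`, in the intended use `T(Z) = S(Z) = ⊕_(i, n) H^i(Y × Z, ℚ(n))` with the cup
product pairing, and `pw X m` is the product of `m + 1` copies of `X`. -/
theorem result {F : Type w} [Field F] {σ : F →+* W.K} (C : CorrCat W σ) (hC : C.IsLawful)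
    (T S : CorrFunctor C) (p : ∀ Z : 𝒱.Obj, T.M Z → S.M Z → F) (hp : IsPairing T S p)
    (X : 𝒱.Obj) (hX : ∀ n : ℕ, C.NumNil (pw X n)) (hD : ∀ n : ℕ, HomEqNum W (pw X n)) (m : ℕ) :
    (∀ x : T.M (pw X m), (∀ y, p _ x y = 0) → x = 0) ∨
    ∀ n : ℕ, ∃ (r : ℕ) (a : Fin r → T.M (pw X n)),
      gapBound (totalBetti W X) (cycRank ops (pw X n)) m n ≤ r ∧ LinearIndependent F a ∧
        ∀ i y, p _ (a i) y = 0 :=
  Pool.Agent.X312.FN.left_law hC hp X hX hD m

end Pool.Agent.Results.MP_a9d3bd_ag.FunctorGapLaw
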